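import Mathlib

namespace Pool.Agent.Results.MP_e20a4f_an.ZStarMorphism

open scoped MultiplierAlgebra

/-- In a C*-algebra `C`, an element `x` is a zero divisor if `x * y = 0` or `y * x = 0`
for some nonzero `y`. -/
def IsZeroDivisor {C : Type*} [NonUnitalCStarAlgebra C] (x : C) : Prop :=
  ∃ y : C, y ≠ 0 ∧ (x * y = 0 ∨ y * x = 0)

/-- A C*-algebra `C` is a `Z*` algebra if every positive element of `C` is a zero divisor. -/
def IsZStar (C : Type*) [NonUnitalCStarAlgebra C] [PartialOrder C] [StarOrderedRing C] : Prop :=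
  ∀ x : C, 0 ≤ x → IsZeroDivisor x

/-- A `*`-homomorphism `f : A → M(B)` is a Woronowicz morphism from `A` to `B` if the linear span
of the elements `f(a) b` (`a ∈ A`, `b ∈ B`) is norm-dense in `B`.  Here `(f a).fst` is the left
centralizer of the multiplier `f a`, that is, `(f a).fst b` is the product `f(a) b ∈ B`. -/
def IsWoronowiczMorphism {A B : Type*} [NonUnitalCStarAlgebra A] [NonUnitalCStarAlgebra B]
    (f : A →⋆ₙₐ[ℂ] 𝓜(ℂ, B)) : Prop :=
  Dense ((Submodule.span ℂ {y : B | ∃ (a : A) (b : B), y = (f a).fst b} : Submodule ℂ B) : Set B)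

section aux

variable {A B : Type*} [NonUnitalCStarAlgebra A] [NonUnitalCStarAlgebra B]

/-- Auxiliary predicate: there is a countable set `S ⊆ A` such that every `a` with `s^* a = 0` for
all `s ∈ S` satisfies `y^* f(a) = 0`. -/
def Good (f : A →⋆ₙₐ[ℂ] 𝓜(ℂ, B)) (y : B) : Prop :=
  ∃ S : Set A, S.Countable ∧ ∀ a : A, (∀ s ∈ S, star s * a = 0) → (f a).snd (star y) = 0

lemma good_of_mem_span (f : A →⋆ₙₐ[ℂ] 𝓜(ℂ, B)) (y : B)
    (hy : y ∈ Submodule.span ℂ {y : B | ∃ (a : A) (b : B), y = (f a).fst b}) : Good f y := by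
  induction hy using Submodule.span_induction with
  | mem y hy =>
    obtain ⟨c, d, rfl⟩ := hy
    refine ⟨{c}, Set.countable_singleton c, fun a ha => ?_⟩
    have h1 : star c * a = 0 := ha c rfl
    have h2 : (f (star c * a)).snd (star d) = 0 := by
      rw [h1, map_zero]; rfl
    rw [map_mul, map_star f] at h2
    have h3 : (star (f c) * f a).snd (star d) = (f a).snd ((star (f c)).snd (star d)) := rfl
    rw [h3, DoubleCentralizer.star_snd, star_star] at h2
    exact h2
  | zero => exact ⟨∅, Set.countable_empty, fun a _ => by simp⟩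
  | add x y _ _ hx hy =>
    obtain ⟨S, hS, hS'⟩ := hx
    obtain ⟨T, hT, hT'⟩ := hy
    refine ⟨S ∪ T, hS.union hT, fun a ha => ?_⟩
    rw [star_add, map_add, hS' a (fun s hs => ha s (Or.inl hs)),
      hT' a (fun s hs => ha s (Or.inr hs)), add_zero]
  | smul c y _ hy =>
    obtain ⟨S, hS, hS'⟩ := hy
    refine ⟨S, hS, fun a ha => ?_⟩
    rw [star_smul, map_smul, hS' a ha, smul_zero]

lemma good_of_dense (f : A →⋆ₙₐ[ℂ] 𝓜(ℂ, B)) (hf : IsWoronowiczMorphism f) (y : B) :
    Good f y := by
  have hy : y ∈ closure ((Submodule.span ℂ {y : B | ∃ (a : A) (b : B), y = (f a).fst b} :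
    Submodule ℂ B) : Set B) := hf y
  obtain ⟨u, hu, hlim⟩ := mem_closure_iff_seq_limit.1 hy
  have hgood : ∀ n, Good f (u n) := fun n => good_of_mem_span f (u n) (hu n)
  choose S hS hS' using hgood
  refine ⟨⋃ n, S n, Set.countable_iUnion hS, fun a ha => ?_⟩
  have h0 : ∀ n, (f a).snd (star (u n)) = 0 := fun n =>
    hS' n a fun s hs => ha s (Set.mem_iUnion.2 ⟨n, hs⟩)
  have h1 : Filter.Tendsto (fun n => (f a).snd (star (u n))) Filter.atTop
      (nhds ((f a).snd (star y))) :=
    (((f a).snd.continuous.comp continuous_star).tendsto y).comp hlim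
  simp only [h0] at h1
  exact (tendsto_nhds_unique h1 tendsto_const_nhds)

end aux

/-- If there is an injective Woronowicz morphism from a `Z*` algebra `A` to a C*-algebra `B`, then
`B` is a `Z*` algebra. -/
theorem result {A B : Type*} [NonUnitalCStarAlgebra A] [PartialOrder A] [StarOrderedRing A]
    [NonUnitalCStarAlgebra B] [PartialOrder B] [StarOrderedRing B]
    (hA : IsZStar A) (f : A →⋆ₙₐ[ℂ] 𝓜(ℂ, B)) (hinj : Function.Injective f)
    (hf : IsWoronowiczMorphism f) : IsZStar B := by
  intro b hb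
  by_contra hb'
  have hb0 : ∀ y : B, b * y = 0 → y = 0 := by
    intro y hy
    by_contra hy0
    exact hb' ⟨y, hy0, Or.inl hy⟩
  obtain ⟨S, hS, hS'⟩ := good_of_dense f hf b
  have hbs : star b = b := (IsSelfAdjoint.of_nonneg hb).star_eq
  rw [hbs] at hS'
  -- an element killed by all of `S` is zero
  have key : ∀ a : A, (∀ s ∈ S, star s * a = 0) → a = 0 := by
    intro a ha
    have h1 : (f a).snd b = 0 := hS' a ha
    have h2 : ∀ c : B, (f a).fst c = 0 := by
      intro c
      apply hb0
      rw [← (f a).central, h1, zero_mul]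
    have h3 : ∀ c : B, (f a).snd c = 0 := by
      intro c
      have : (f a).snd c * star ((f a).snd c) = 0 := by
        rw [(f a).central, h2, mul_zero]
      exact (CStarRing.mul_star_self_eq_zero_iff _).1 this
    have h4 : f a = 0 := by
      apply DoubleCentralizer.ext
      apply Prod.ext
      · exact ContinuousLinearMap.ext h2
      · exact ContinuousLinearMap.ext h3
    exact hinj (by rw [h4, map_zero])
  -- enumerate
  obtain ⟨s, hs⟩ : ∃ s : ℕ → A, S ∪ {0} = Set.range s :=
    (hS.union (Set.countable_singleton 0)).exists_eq_range ⟨0, Or.inr rfl⟩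
  let c : ℕ → ℝ := fun n => (1 / 2) ^ n * (1 + ‖s n‖ ^ 2)⁻¹
  have hc : ∀ n, 0 < c n := fun n => by positivity
  let t : ℕ → A := fun n => (c n : ℂ) • (s n * star (s n))
  have ht0 : ∀ n, 0 ≤ t n := by
    intro n
    have h1 : t n = ((Real.sqrt (c n) : ℂ) • s n) * star ((Real.sqrt (c n) : ℂ) • s n) := by
      simp only [t, star_smul, smul_mul_smul_comm]
      congr 1
      rw [Complex.star_def, Complex.conj_ofReal, ← Complex.ofReal_mul,
        Real.mul_self_sqrt (hc n).le]
    rw [h1]
    exact mul_star_self_nonneg _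
  have hnorm : ∀ n, ‖t n‖ ≤ (1 / 2) ^ n := by
    intro n
    simp only [t]
    rw [norm_smul, CStarRing.norm_self_mul_star, Complex.norm_real, Real.norm_of_nonneg (hc n).le]
    simp only [c]
    have h1 : (1 + ‖s n‖ ^ 2)⁻¹ * (‖s n‖ * ‖s n‖) ≤ 1 := by
      rw [inv_mul_le_iff₀ (by positivity)]
      nlinarith
    calc (1 / 2 : ℝ) ^ n * (1 + ‖s n‖ ^ 2)⁻¹ * (‖s n‖ * ‖s n‖)
        = (1 / 2 : ℝ) ^ n * ((1 + ‖s n‖ ^ 2)⁻¹ * (‖s n‖ * ‖s n‖)) := by ring
      _ ≤ (1 / 2 : ℝ) ^ n * 1 := by gcongr
      _ = (1 / 2 : ℝ) ^ n := mul_one _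
  have hsum : Summable t :=
    Summable.of_norm_bounded (summable_geometric_of_lt_one (by norm_num) (by norm_num)) hnorm
  let x : A := ∑' n, t n
  have hx0 : 0 ≤ x := tsum_nonneg ht0
  have hx : ∀ a : A, x * a = 0 → a = 0 := by
    intro a hxa
    apply key
    intro r hr
    obtain ⟨n, rfl⟩ : r ∈ Set.range s := hs ▸ (Or.inl hr)
    have hle : t n ≤ x := hsum.le_tsum n (fun j _ => ht0 j)
    have h1 : star a * t n * a ≤ star a * x * a := star_left_conjugate_le_conjugate hle a
    rw [mul_assoc (star a) x a, hxa, mul_zero] at h1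
    have h2 : 0 ≤ star a * t n * a := star_left_conjugate_nonneg (ht0 n) a
    have h3 : star a * t n * a = 0 := le_antisymm h1 h2
    have h4 : star a * t n * a = (c n : ℂ) • (star (star (s n) * a) * (star (s n) * a)) := by
      simp only [t, star_mul, star_star, mul_smul_comm, smul_mul_assoc, mul_assoc]
    rw [h4, smul_eq_zero] at h3
    rcases h3 with h3 | h3
    · exact absurd (Complex.ofReal_eq_zero.1 h3) (hc n).ne'
    · exact (CStarRing.star_mul_self_eq_zero_iff _).1 h3
  obtain ⟨a, ha0, ha | ha⟩ := hA x hx0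
  · exact ha0 (hx a ha)
  · have hxs : star x = x := (IsSelfAdjoint.of_nonneg hx0).star_eq
    have : x * star a = 0 := by
      have := congrArg star ha
      rwa [star_mul, hxs, star_zero] at this
    exact ha0 (star_eq_zero.1 (hx _ this))

end Pool.Agent.Results.MP_e20a4f_an.ZStarMorphism
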